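import Mathlib

/-!
# Coherent finite-to-one functions on a well-ordered set with countable initial segments
-/

namespace Pool.Agent.LibDowk70

open Set

section

variable {W : Type} [LinearOrder W]

/-- A nondecreasing cofinal sequence in a countable initial segment. -/
theorem exists_seq (hc : ∀ a : W, (Iic a).Countable) (δ : W) :
    ∃ g : ℕ → W, (∃ x, x < δ) → (∀ n, g n < δ) ∧ ∀ y, y < δ → ∃ n, y ≤ g n := by
  by_cases h : ∃ x, x < δ
  · obtain ⟨a, ha⟩ := ((hc δ).mono Iio_subset_Iic_self : (Iio δ).Countable).exists_eq_range h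
    refine ⟨a, fun _ => ⟨fun n => ?_, fun y hy => ?_⟩⟩
    · have : a n ∈ Iio δ := by rw [ha]; exact mem_range_self n
      exact this
    · have : y ∈ Iio δ := hy
      rw [ha] at this
      obtain ⟨n, rfl⟩ := this
      exact ⟨n, le_rfl⟩
  · exact ⟨fun _ => δ, fun h' => absurd h' h⟩

variable [WellFoundedLT W]

open Classical in
/-- The recursive construction of the functions. -/
noncomputable def coh (g : W → ℕ → W) : W → W → ℕ :=
  (wellFounded_lt (α := W)).fix (fun δ ih y =>
    if h : ∃ n, y ≤ g δ n then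
      max (Nat.find h) (if h2 : y < g δ (Nat.find h) ∧ g δ (Nat.find h) < δ then
        ih (g δ (Nat.find h)) h2.2 y else 0)
    else 0)

open Classical in
theorem coh_eq (g : W → ℕ → W) (δ y : W) : coh g δ y =
    if h : ∃ n, y ≤ g δ n then
      max (Nat.find h) (if y < g δ (Nat.find h) ∧ g δ (Nat.find h) < δ then
        coh g (g δ (Nat.find h)) y else 0)
    else 0 := by
  rw [coh, WellFounded.fix_eq]
  rfl

/-- The two properties of the functions. -/
def CohProp (e : W → W → ℕ) (δ : W) : Prop :=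
  (∀ M : ℕ, {y | y < δ ∧ e δ y ≤ M}.Finite) ∧
    ∀ γ, γ < δ → {y | y < γ ∧ e γ y ≠ e δ y}.Finite

theorem coh_prop {g : W → ℕ → W}
    (hg : ∀ δ : W, (∃ x, x < δ) → (∀ n, g δ n < δ) ∧ ∀ y, y < δ → ∃ n, y ≤ g δ n) (δ : W) :
    CohProp (coh g) δ := by
  induction δ using (wellFounded_lt (α := W)).induction with
  | _ δ ih =>
  classical
  -- the formula
  have formula : ∀ y, y < δ → ∃ n, y ≤ g δ n ∧ (∀ m < n, g δ m < y) ∧ g δ n < δ ∧
      coh g δ y = max n (if y < g δ n then coh g (g δ n) y else 0) := by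
    intro y hy
    obtain ⟨h1, h2⟩ := hg δ ⟨y, hy⟩
    have h := h2 y hy
    refine ⟨Nat.find h, Nat.find_spec h, fun m hm => not_le.1 (Nat.find_min h hm), h1 _, ?_⟩
    rw [coh_eq, dif_pos h]
    congr 1
    by_cases h3 : y < g δ (Nat.find h)
    · rw [if_pos ⟨h3, h1 _⟩, if_pos h3]
    · rw [if_neg (fun h4 => h3 h4.1), if_neg h3]
  refine ⟨fun M => ?_, fun γ hγ => ?_⟩
  · -- finite-to-one
    have hfin : (⋃ n ∈ Iic M, ({g δ n} ∪ {y | y < g δ n ∧ g δ n < δ ∧
        coh g (g δ n) y ≤ M})).Finite := by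
      refine (finite_Iic M).biUnion (fun n _ => (finite_singleton _).union ?_)
      by_cases h : g δ n < δ
      · exact ((ih _ h).1 M).subset (fun y hy => ⟨hy.1, hy.2.2⟩)
      · exact (finite_empty).subset (fun y hy => absurd hy.2.1 h)
    refine hfin.subset ?_
    rintro y ⟨hy, hyM⟩
    obtain ⟨n, hn, -, hnδ, hform⟩ := formula y hy
    rw [hform] at hyM
    refine mem_biUnion (x := n) (le_trans (le_max_left _ _) hyM) ?_
    rcases hn.lt_or_eq with h | h
    · refine Or.inr ⟨h, hnδ, ?_⟩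
      rw [if_pos h] at hyM
      exact le_trans (le_max_right _ _) hyM
    · exact Or.inl h
  · -- coherence
    obtain ⟨N, hN, hNlt, hNδ, -⟩ := formula γ hγ
    have hbad1 : (⋃ n ∈ Iic N, ({g δ n} ∪ {y | y < g δ n ∧ y < γ ∧ g δ n < δ ∧
        coh g (g δ n) y ≠ coh g γ y})).Finite := by
      refine (finite_Iic N).biUnion (fun n hn => (finite_singleton _).union ?_)
      by_cases h : g δ n < δ
      · rcases lt_trichotomy (g δ n) γ with h1 | h1 | h1
        · exact ((ih _ hγ).2 _ h1).subset (fun y hy => ⟨hy.1, hy.2.2.2⟩)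
        · rw [h1]
          exact finite_empty.subset (fun y hy => absurd rfl hy.2.2.2)
        · exact ((ih _ h).2 _ h1).subset (fun y hy => ⟨hy.2.1, hy.2.2.2.symm⟩)
      · exact (finite_empty).subset (fun y hy => absurd hy.2.2.1 h)
    have hbad2 : {y | y < γ ∧ coh g γ y ≤ N}.Finite := (ih _ hγ).1 N
    refine (hbad1.union hbad2).subset ?_
    rintro y ⟨hy, hne⟩
    by_contra hcon
    rw [mem_union, not_or] at hcon
    obtain ⟨hc1, hc2⟩ := hcon
    obtain ⟨n, hn, hnlt, hnδ, hform⟩ := formula y (hy.trans hγ)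
    have hnN : n ≤ N := by
      by_contra h
      exact lt_irrefl _ ((hN.trans_lt (hnlt N (not_le.1 h))).trans hy)
    have hcn : y ∉ ({g δ n} ∪ {y | y < g δ n ∧ y < γ ∧ g δ n < δ ∧
        coh g (g δ n) y ≠ coh g γ y} : Set W) := fun h => hc1 (mem_biUnion (x := n) hnN h)
    rw [mem_union, not_or] at hcn
    have hlt : y < g δ n := lt_of_le_of_ne hn hcn.1
    have heq : coh g (g δ n) y = coh g γ y := by
      by_contra h
      exact hcn.2 ⟨hlt, hy, hnδ, h⟩
    rw [if_pos hlt, heq] at hform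
    have hNlt' : N < coh g γ y := by
      by_contra h
      exact hc2 ⟨hy, not_lt.1 h⟩
    refine hne ?_
    rw [hform]
    omega

theorem exists_coherent (hc : ∀ a : W, (Iic a).Countable) :
    ∃ e : W → W → ℕ, ∀ δ, CohProp e δ := by
  choose g hg using fun δ => exists_seq hc δ
  exact ⟨coh g, coh_prop hg⟩

end

end Pool.Agent.LibDowk70
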