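import Mathlib

/-!
# Almost every tuple of reals is sufficiently independent along an infinite set
-/

namespace Pool.Agent.LibDowk70

open Set MeasureTheory Filter Topology

/-- The label of the real `r` at the place `m`. -/
noncomputable def Phi (r : ℝ) (m : ℕ) : ℕ := ⌊(Int.fract (2 ^ m * r))⁻¹⌋₊

theorem phi_eq {r : ℝ} {m k : ℕ} (hk : 1 ≤ k) (j : ℤ) (h1 : j + ((k : ℝ) + 1)⁻¹ < 2 ^ m * r)
    (h2 : 2 ^ m * r < j + (k : ℝ)⁻¹) : Phi r m = k := by
  have hk' : (1 : ℝ) ≤ k := by exact_mod_cast hk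
  have h3 : (k : ℝ)⁻¹ ≤ 1 := inv_le_one_of_one_le₀ hk'
  have h4 : (0 : ℝ) < ((k : ℝ) + 1)⁻¹ := by positivity
  have hf : Int.fract (2 ^ m * r) = 2 ^ m * r - j := by
    rw [Int.fract_eq_iff]
    exact ⟨by linarith, by linarith, j, by ring⟩
  rw [Phi, hf, Nat.floor_eq_iff (by
    apply inv_nonneg.2
    linarith)]
  have h5 : (0 : ℝ) < 2 ^ m * r - j := by linarith
  constructor
  · rw [le_inv_comm₀ (by positivity) h5]
    linarith
  · rw [inv_lt_comm₀ h5 (by positivity)]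
    linarith

variable {n : ℕ}

/-- The box in the closed ball of radius `2^{-m}` around `s`. -/
def box (k : Fin n → ℕ) (s : Fin n → ℝ) (m : ℕ) : Set (Fin n → ℝ) :=
  Set.pi univ (fun i => Ioo ((2 ^ m : ℝ)⁻¹ * (⌊2 ^ m * s i⌋ + ((k i : ℝ) + 1)⁻¹))
    ((2 ^ m : ℝ)⁻¹ * (⌊2 ^ m * s i⌋ + (k i : ℝ)⁻¹)))

theorem box_phi {k : Fin n → ℕ} (hk : ∀ i, 1 ≤ k i) {s t : Fin n → ℝ} {m : ℕ}
    (ht : t ∈ box k s m) (i : Fin n) : Phi (t i) m = k i := by
  obtain ⟨h1, h2⟩ := ht i trivial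
  have h0 : (0 : ℝ) < 2 ^ m := by positivity
  rw [inv_mul_lt_iff₀ h0] at h1
  rw [lt_inv_mul_iff₀ h0] at h2
  exact phi_eq (hk i) ⌊2 ^ m * s i⌋ h1 h2

theorem box_subset {k : Fin n → ℕ} (hk : ∀ i, 1 ≤ k i) (s : Fin n → ℝ) (m : ℕ) :
    box k s m ⊆ Metric.closedBall s ((2 ^ m : ℝ)⁻¹) := by
  intro t ht
  rw [Metric.mem_closedBall, dist_pi_le_iff (by positivity)]
  intro i
  obtain ⟨h1, h2⟩ := ht i trivial
  have h0 : (0 : ℝ) < 2 ^ m := by positivity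
  rw [inv_mul_lt_iff₀ h0] at h1
  rw [lt_inv_mul_iff₀ h0] at h2
  have h3 : (0 : ℝ) < ((k i : ℝ) + 1)⁻¹ := by positivity
  have hk' : (1 : ℝ) ≤ k i := by exact_mod_cast hk i
  have h4 : (k i : ℝ)⁻¹ ≤ 1 := inv_le_one_of_one_le₀ hk'
  have h5 := Int.floor_le (2 ^ m * s i)
  have h6 := Int.lt_floor_add_one (2 ^ m * s i)
  have h7 : |2 ^ m * t i - 2 ^ m * s i| ≤ 1 := by
    rw [abs_le]
    constructor <;> linarith
  rw [← mul_sub, abs_mul, abs_of_pos h0] at h7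
  rw [Real.dist_eq]
  calc |t i - s i| = (2 ^ m : ℝ)⁻¹ * (2 ^ m * |t i - s i|) := by
        rw [← mul_assoc, inv_mul_cancel₀ h0.ne', one_mul]
    _ ≤ (2 ^ m : ℝ)⁻¹ * 1 := by gcongr
    _ = (2 ^ m : ℝ)⁻¹ := mul_one _

/-- The relative volume of the box. -/
noncomputable def relVol (k : Fin n → ℕ) : ℝ :=
  ∏ i, ((k i : ℝ)⁻¹ - ((k i : ℝ) + 1)⁻¹) / 2

theorem relVol_pos {k : Fin n → ℕ} (hk : ∀ i, 1 ≤ k i) : 0 < relVol k := by
  refine Finset.prod_pos (fun i _ => ?_)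
  have hk' : (1 : ℝ) ≤ k i := by exact_mod_cast hk i
  have : ((k i : ℝ) + 1)⁻¹ < (k i : ℝ)⁻¹ := by
    apply inv_strictAnti₀ <;> linarith
  linarith

theorem volume_box {k : Fin n → ℕ} (hk : ∀ i, 1 ≤ k i) (s : Fin n → ℝ) (m : ℕ) :
    volume (box k s m) =
      ENNReal.ofReal (relVol k) * volume (Metric.closedBall s ((2 ^ m : ℝ)⁻¹)) := by
  rw [box, Real.volume_pi_closedBall _ (by positivity)]
  rw [Real.volume_pi_Ioo, ← ENNReal.ofReal_mul (relVol_pos hk).le, relVol,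
    Fintype.card_fin]
  have h1 : ∀ i : Fin n, (0 : ℝ) ≤ (2 ^ m : ℝ)⁻¹ * (⌊2 ^ m * s i⌋ + (k i : ℝ)⁻¹) -
      (2 ^ m : ℝ)⁻¹ * (⌊2 ^ m * s i⌋ + ((k i : ℝ) + 1)⁻¹) := by
    intro i
    have hk' : (1 : ℝ) ≤ k i := by exact_mod_cast hk i
    have : ((k i : ℝ) + 1)⁻¹ < (k i : ℝ)⁻¹ := by
      apply inv_strictAnti₀ <;> linarith
    rw [← mul_sub]
    have h0 : (0 : ℝ) < (2 ^ m)⁻¹ := by positivity
    apply mul_nonneg h0.le
    linarith
  rw [← ENNReal.ofReal_prod_of_nonneg (fun i _ => h1 i)]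
  congr 1
  have h2 : ((2 : ℝ) * (2 ^ m)⁻¹) ^ n = ∏ _i : Fin n, ((2 : ℝ) * (2 ^ m)⁻¹) := by
    simp
  rw [h2, ← Finset.prod_mul_distrib]
  refine Finset.prod_congr rfl (fun i _ => ?_)
  ring

theorem null_lemma {A : Set ℕ} (hA : A.Infinite) {k : Fin n → ℕ} (hk : ∀ i, 1 ≤ k i) :
    volume {s : Fin n → ℝ | {m ∈ A | ∀ i, Phi (s i) m = k i}.Finite} = 0 := by
  let N : ℕ → Set (Fin n → ℝ) := fun M => {s | ∀ m ∈ A, M ≤ m → ¬ ∀ i, Phi (s i) m = k i}
  have hsub : {s : Fin n → ℝ | {m ∈ A | ∀ i, Phi (s i) m = k i}.Finite} ⊆ ⋃ M, N M := by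
    intro s hs
    obtain ⟨M, hM⟩ := hs.bddAbove
    refine mem_iUnion.2 ⟨M + 1, fun m hm hMm hcon => ?_⟩
    have := hM (show m ∈ {m ∈ A | ∀ i, Phi (s i) m = k i} from ⟨hm, hcon⟩)
    omega
  refine measure_mono_null hsub (measure_iUnion_null (fun M => ?_))
  have hdens := Besicovitch.ae_tendsto_measure_inter_div (volume : Measure (Fin n → ℝ)) (N M)
  have hall : ∀ s : Fin n → ℝ, ¬ Tendsto (fun r => volume (N M ∩ Metric.closedBall s r) /
      volume (Metric.closedBall s r)) (𝓝[>] 0) (𝓝 1) := by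
    intro s hs
    have hc := relVol_pos hk
    have hlt : (1 : ENNReal) - ENNReal.ofReal (relVol k) < 1 :=
      ENNReal.sub_lt_self ENNReal.one_ne_top one_ne_zero (by simpa using hc)
    have hev := hs.eventually (lt_mem_nhds hlt)
    rw [eventually_nhdsWithin_iff] at hev
    obtain ⟨ε, hε, hball⟩ := Metric.eventually_nhds_iff.1 hev
    obtain ⟨m₀, hm₀⟩ := exists_pow_lt_of_lt_one hε (show (1 / 2 : ℝ) < 1 by norm_num)
    obtain ⟨m, hmA, hm⟩ := hA.exists_gt (max m₀ M)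
    have hr : ((2 ^ m : ℝ)⁻¹) < ε := by
      have : ((2 ^ m : ℝ)⁻¹) ≤ (1 / 2 : ℝ) ^ m₀ := by
        rw [one_div, inv_pow]
        apply inv_anti₀ (by positivity)
        exact pow_le_pow_right₀ (by norm_num) (by omega)
      linarith
    have hr0 : (0 : ℝ) < (2 ^ m : ℝ)⁻¹ := by positivity
    have h1 := hball (y := (2 ^ m : ℝ)⁻¹) (by
      rw [Real.dist_eq, sub_zero, abs_of_pos hr0]
      exact hr) hr0
    have hfin : volume (Metric.closedBall s ((2 ^ m : ℝ)⁻¹)) ≠ ⊤ := by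
      rw [Real.volume_pi_closedBall _ hr0.le]
      exact ENNReal.ofReal_ne_top
    have hpos : volume (Metric.closedBall s ((2 ^ m : ℝ)⁻¹)) ≠ 0 := by
      rw [Real.volume_pi_closedBall _ hr0.le]
      simp only [ne_eq, ENNReal.ofReal_eq_zero, not_le]
      positivity
    have hmeas : MeasurableSet (box k s m) := MeasurableSet.univ_pi (fun i => measurableSet_Ioo)
    have hle : volume (N M ∩ Metric.closedBall s ((2 ^ m : ℝ)⁻¹)) ≤
        volume (Metric.closedBall s ((2 ^ m : ℝ)⁻¹)) - volume (box k s m) := by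
      rw [← measure_sdiff (box_subset hk s m) hmeas.nullMeasurableSet
        (ne_top_of_le_ne_top hfin (measure_mono (box_subset hk s m)))]
      refine measure_mono ?_
      rintro t ⟨ht1, ht2⟩
      refine ⟨ht2, fun ht3 => ?_⟩
      exact ht1 m hmA (by omega) (fun i => box_phi hk ht3 i)
    rw [volume_box hk] at hle
    have h2 : volume (N M ∩ Metric.closedBall s ((2 ^ m : ℝ)⁻¹)) /
        volume (Metric.closedBall s ((2 ^ m : ℝ)⁻¹)) ≤ 1 - ENNReal.ofReal (relVol k) := by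
      refine ENNReal.div_le_of_le_mul (hle.trans ?_)
      rw [ENNReal.sub_mul (fun _ _ => hfin), one_mul]
    exact absurd h1 (not_lt.2 h2)
  have h3 : ∀ᵐ s ∂(volume.restrict (N M)), False := by
    filter_upwards [hdens] with s hs using hall s hs
  rw [← Measure.restrict_apply_self volume (N M)]
  refine measure_mono_null (subset_univ _) ?_
  rw [ae_iff] at h3
  simpa using h3

end Pool.Agent.LibDowk70
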