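import Mathlib

/-!
# A Dowker space from a guessing principle on a well-ordered set of type `ω₁`
-/

namespace Pool.Agent.LibDowk70

open Set Topology

/-- Countable paracompactness: every countable open cover has a locally finite open
refinement. -/
def CountablyParacompact (X : Type*) [TopologicalSpace X] : Prop :=
  ∀ U : ℕ → Set X, (∀ n, IsOpen (U n)) → (⋃ n, U n) = univ →
    ∃ V : Set (Set X), (∀ A ∈ V, IsOpen A) ∧ ⋃₀ V = univ ∧
      LocallyFinite (fun A : V => (A : Set X)) ∧ ∀ A ∈ V, ∃ n, A ⊆ U n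

/-- Dowker spaces: normal Hausdorff spaces that are not countably paracompact. -/
def IsDowker (X : Type*) [TopologicalSpace X] : Prop :=
  T2Space X ∧ NormalSpace X ∧ ¬ CountablyParacompact X

/-- The guessing principle. -/
def Guess (W : Type) [LinearOrder W] (f : W → W → ℕ) : Prop :=
  ∀ B : Set W, ¬ B.Countable → ∃ γ : W, ∀ F : Finset W, (∀ δ ∈ F, γ < δ) → ∀ k : W → ℕ,
    ∃ y ∈ B, y < γ ∧ ∀ δ ∈ F, f δ y = k δ

section Omega1

variable {W : Type} [LinearOrder W] [WellFoundedLT W]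

/-- Countable sets are strictly bounded. -/
theorem exists_bound (hc : ∀ a : W, (Iic a).Countable) (hu : ¬ (univ : Set W).Countable)
    {C : Set W} (hC : C.Countable) : ∃ w, ∀ c ∈ C, c < w := by
  by_contra h
  push Not at h
  refine hu ((hC.biUnion (fun c _ => hc c)).mono ?_)
  intro w _
  obtain ⟨c, hcC, hw⟩ := h w
  exact mem_biUnion hcC hw

theorem uncountable_Ioi (hc : ∀ a : W, (Iic a).Countable) {B : Set W} (hB : ¬ B.Countable)
    (g : W) : ¬ (B ∩ Ioi g).Countable := by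
  intro h
  refine hB ((h.union (hc g)).mono ?_)
  intro x hx
  rcases lt_or_ge g x with h' | h'
  · exact Or.inl ⟨hx, h'⟩
  · exact Or.inr h'

/-- Closure points of `h`. -/
def Good (h : W → W) (α : W) : Prop := (∃ γ, γ < α) ∧ ∀ γ, γ < α → h γ < α

theorem exists_good (hc : ∀ a : W, (Iic a).Countable) (hu : ¬ (univ : Set W).Countable)
    (h : W → W) (γ : W) : ∃ α, γ < α ∧ Good h α := by
  have step : ∀ a : W, ∃ b : W, a < b ∧ ∀ c ≤ a, h c < b := by
    intro a
    obtain ⟨b, hb⟩ := exists_bound hc hu (((hc a).image h).union (hc a))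
    refine ⟨b, hb a (Or.inr le_rfl), fun c hca => hb _ (Or.inl ⟨c, hca, rfl⟩)⟩
  choose s hs1 hs2 using step
  let a : ℕ → W := fun n => s^[n] γ
  have ha : ∀ n, a (n + 1) = s (a n) := fun n => Function.iterate_succ_apply' s n γ
  obtain ⟨w, hw⟩ := exists_bound hc hu (countable_range a)
  have hne : {w | ∀ n, a n < w}.Nonempty := ⟨w, fun n => hw _ ⟨n, rfl⟩⟩
  have hwf : WellFounded (fun x y : W => x < y) := wellFounded_lt
  let α := hwf.min _ hne
  have hα : ∀ n, a n < α := hwf.min_mem _ hne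
  refine ⟨α, hα 0, ⟨γ, hα 0⟩, ?_⟩
  intro c hcα
  have : ∃ n, c ≤ a n := by
    by_contra hcon
    push Not at hcon
    exact hwf.not_lt_min (s := {w | ∀ n, a n < w}) hcon hcα
  obtain ⟨n, hn⟩ := this
  calc h c < a (n + 1) := by rw [ha]; exact hs2 _ _ hn
    _ < α := hα _

theorem good_uncountable (hc : ∀ a : W, (Iic a).Countable) (hu : ¬ (univ : Set W).Countable)
    (h : W → W) : ¬ {α | Good h α}.Countable := by
  intro hcon
  obtain ⟨w, hw⟩ := exists_bound hc hu hcon
  obtain ⟨α, h1, h2⟩ := exists_good hc hu h w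
  exact lt_asymm h1 (hw α h2)

end Omega1

section Space

variable {W : Type} [LinearOrder W]

/-- The parent relation at stage `δ`. -/
def par (f i : W → W → ℕ) (δ y x : W) : Prop := y < x ∧ x < δ ∧ f δ y = i δ x

/-- Ancestors. -/
def anc (f i : W → W → ℕ) (δ : W) : ℕ → W → W → Prop
  | 0, y, x => y = x
  | k + 1, y, x => ∃ z, par f i δ y z ∧ anc f i δ k z x

theorem par_unique {f i : W → W → ℕ} (hi : ∀ δ, InjOn (i δ) (Iio δ)) {δ y x x' : W}
    (h : par f i δ y x) (h' : par f i δ y x') : x = x' :=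
  hi δ h.2.1 h'.2.1 (h.2.2.symm.trans h'.2.2)

theorem anc_le {f i : W → W → ℕ} {δ : W} : ∀ {k : ℕ} {y x : W}, anc f i δ k y x → y ≤ x
  | 0, _, _, h => le_of_eq h
  | _ + 1, _, _, ⟨_, h, h'⟩ => h.1.le.trans (anc_le h')

theorem anc_succ_lt {f i : W → W → ℕ} {δ : W} {k : ℕ} {y x : W} (h : anc f i δ (k + 1) y x) :
    y < x := by
  obtain ⟨z, h, h'⟩ := h
  exact h.1.trans_le (anc_le h')

/-- The basic sets. -/
def U (f i : W → W → ℕ) (δ x : W) (n : ℕ) : Set (W × ℕ) :=
  {p | p.1 < δ ∧ x < δ ∧ ∃ k, p.2 + k = n ∧ anc f i δ k p.1 x}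

open Classical in
/-- The code of a point. -/
noncomputable def code (f i : W → W → ℕ) (p : W × ℕ) : (W × W × ℕ) ⊕ W → Bool
  | Sum.inl t => decide (p ∈ U f i t.1 t.2.1 t.2.2)
  | Sum.inr γ => decide (p.1 ≤ γ)

variable [TopologicalSpace (W × ℕ)] {f i : W → W → ℕ} (hI : IsInducing (code f i))

include hI

theorem isClopen_U (δ x : W) (n : ℕ) : IsClopen (U f i δ x n) := by
  have h : Continuous (fun p => code f i p (Sum.inl (δ, x, n))) :=
    (continuous_apply (Sum.inl (δ, x, n))).comp hI.continuous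
  have h2 : U f i δ x n = (fun p => code f i p (Sum.inl (δ, x, n))) ⁻¹' {true} := by
    ext p
    simp [code]
  rw [h2]
  exact (isClopen_discrete _).preimage h

theorem isClopen_Iic (γ : W) : IsClopen {p : W × ℕ | p.1 ≤ γ} := by
  have h : Continuous (fun p => code f i p (Sum.inr γ)) :=
    (continuous_apply (Sum.inr γ : (W × W × ℕ) ⊕ W)).comp hI.continuous
  have h2 : {p : W × ℕ | p.1 ≤ γ} = (fun p => code f i p (Sum.inr γ)) ⁻¹' {true} := by
    ext p
    simp [code]
  rw [h2]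
  exact (isClopen_discrete _).preimage h

theorem mem_closure_of {p : W × ℕ} {s : Set (W × ℕ)}
    (h : ∀ J : Finset ((W × W × ℕ) ⊕ W), ∃ q ∈ s, ∀ j ∈ J, code f i q j = code f i p j) :
    p ∈ closure s := by
  rw [hI.closure_eq_preimage_closure_image, mem_preimage, mem_closure_iff]
  intro O hO hp
  obtain ⟨J, u, hu, hsub⟩ := isOpen_pi_iff.1 hO _ hp
  obtain ⟨q, hq, hqJ⟩ := h J
  refine ⟨code f i q, hsub ?_, mem_image_of_mem _ hq⟩
  intro j hj
  rw [hqJ j hj]
  exact (hu j hj).2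

theorem t2 (hmax : ∀ w : W, ∃ δ, w < δ) : T2Space (W × ℕ) := by
  refine T2Space.of_injective_continuous (f := code f i) ?_ hI.continuous
  have key : ∀ p q : W × ℕ, p.1 < q.1 → code f i p ≠ code f i q := by
    intro p q h hcon
    have := congrFun hcon (Sum.inr p.1)
    simp [code, not_le.2 h] at this
  rintro ⟨x, n⟩ ⟨y, m⟩ h
  rcases lt_trichotomy x y with hxy | hxy | hxy
  · exact absurd h (key _ _ hxy)
  · subst hxy
    obtain ⟨δ, hδ⟩ := hmax x
    have h1 : (x, n) ∈ U f i δ x n := ⟨hδ, hδ, 0, rfl, rfl⟩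
    have h2 : (x, m) ∈ U f i δ x n := by
      have := congrFun h (Sum.inl (δ, x, n))
      simpa [code, h1] using this
    obtain ⟨-, -, k, hk, hk'⟩ := h2
    cases k with
    | zero =>
      have : m = n := hk
      rw [this]
    | succ k => exact absurd (anc_succ_lt hk') (lt_irrefl _)
  · exact absurd h.symm (key _ _ hxy)

theorem isOpen_level (hmax : ∀ w : W, ∃ δ, w < δ) (n : ℕ) :
    IsOpen {p : W × ℕ | p.2 ≤ n} := by
  rw [isOpen_iff_mem_nhds]
  rintro ⟨x, m⟩ hm
  obtain ⟨δ, hδ⟩ := hmax x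
  refine Filter.mem_of_superset ((isClopen_U hI δ x m).isOpen.mem_nhds ⟨hδ, hδ, 0, rfl, rfl⟩) ?_
  rintro ⟨y, l⟩ ⟨-, -, k, hk, -⟩
  simp only [mem_ofPred_eq] at *
  omega

end Space

section Main

variable {W : Type} [LinearOrder W] [WellFoundedLT W] [TopologicalSpace (W × ℕ)]
  {f i : W → W → ℕ} (hI : IsInducing (code f i))

include hI

theorem key (hc : ∀ a : W, (Iic a).Countable) (hf : Guess W f)
    (hi : ∀ δ, InjOn (i δ) (Iio δ)) {B : Set W} (hB : ¬ B.Countable) :
    ∃ h : W → W, ∀ α, Good h α → ∀ n,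
      (α, n + 1) ∈ closure {q : W × ℕ | q.1 ∈ B ∧ q.2 = n} := by
  choose h hh using fun g => hf (B ∩ Ioi g) (uncountable_Ioi hc hB g)
  refine ⟨h, fun α hα n => ?_⟩
  obtain ⟨⟨γ₀, hγ₀⟩, hα⟩ := hα
  apply mem_closure_of hI
  intro J
  classical
  -- the stages above `α`
  let F : Finset W := (J.image (fun j => Sum.elim (fun t : W × W × ℕ => t.1) id j)).filter
    (fun δ => α < δ)
  let G : Finset W := insert γ₀ ((J.image (fun j => Sum.elim (fun t : W × W × ℕ => t.1) id j) ∪
    J.image (fun j => Sum.elim (fun t : W × W × ℕ => t.2.1) id j)).filter (fun γ => γ < α))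
  have hGne : G.Nonempty := ⟨γ₀, Finset.mem_insert_self _ _⟩
  have hGlt : ∀ g ∈ G, g < α := by
    intro g hg
    rcases Finset.mem_insert.1 hg with rfl | hg
    · exact hγ₀
    · exact (Finset.mem_filter.1 hg).2
  obtain ⟨y, ⟨hyB, hyg⟩, hyh, hyF⟩ := hh (G.max' hGne) F (fun δ hδ =>
    (hα _ (hGlt _ (G.max'_mem hGne))).trans (Finset.mem_filter.1 hδ).2) (fun δ => i δ α)
  have hyα : y < α := hyh.trans (hα _ (hGlt _ (G.max'_mem hGne)))
  have hyG : ∀ g ∈ G, g < y := fun g hg => (G.le_max' g hg).trans_lt hyg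
  refine ⟨(y, n), ⟨hyB, rfl⟩, ?_⟩
  rintro (⟨δ, x, m⟩ | γ) hj
  · simp only [code, decide_eq_decide]
    have hδJ : δ ∈ J.image (fun j => Sum.elim (fun t : W × W × ℕ => t.1) id j) :=
      Finset.mem_image.2 ⟨_, hj, rfl⟩
    have hxJ : x ∈ J.image (fun j => Sum.elim (fun t : W × W × ℕ => t.2.1) id j) :=
      Finset.mem_image.2 ⟨_, hj, rfl⟩
    have hxy : x < α → x < y := fun hx => hyG _ (Finset.mem_insert_of_mem
      (Finset.mem_filter.2 ⟨Finset.mem_union_right _ hxJ, hx⟩))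
    rcases lt_trichotomy δ α with hδ | hδ | hδ
    · -- `δ < α`
      have : δ < y := hyG _ (Finset.mem_insert_of_mem
        (Finset.mem_filter.2 ⟨Finset.mem_union_left _ hδJ, hδ⟩))
      constructor
      · rintro ⟨h1, -⟩
        exact absurd this (lt_asymm h1)
      · rintro ⟨h1, -⟩
        exact absurd hδ (lt_asymm h1)
    · subst hδ
      constructor
      · rintro ⟨-, h2, k, -, h3⟩
        exact absurd (hxy h2) (not_lt.2 (anc_le h3))
      · rintro ⟨h1, -⟩
        exact absurd h1 (lt_irrefl _)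
    · have hpar : par f i δ y α := ⟨hyα, hδ, hyF δ (Finset.mem_filter.2 ⟨hδJ, hδ⟩)⟩
      constructor
      · rintro ⟨-, h2, k, hk, h3⟩
        refine ⟨hδ, h2, ?_⟩
        cases k with
        | zero =>
          exfalso
          have h3' : y = x := h3
          subst h3'
          exact lt_irrefl _ (hxy hyα)
        | succ k =>
          obtain ⟨z, hz, hz'⟩ := h3
          rw [par_unique hi hz hpar] at hz'
          exact ⟨k, by simp only at hk ⊢; omega, hz'⟩
      · rintro ⟨-, h2, k, hk, h3⟩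
        exact ⟨hyα.trans hδ, h2, k + 1, by simp only at hk ⊢; omega, α, hpar, h3⟩
  · simp only [code, decide_eq_decide]
    rcases lt_or_ge γ α with hγ | hγ
    · have : γ < y := hyG _ (Finset.mem_insert_of_mem (Finset.mem_filter.2
        ⟨Finset.mem_union_left _ (Finset.mem_image.2 ⟨_, hj, rfl⟩), hγ⟩))
      constructor
      · intro h1
        exact absurd this (not_lt.2 h1)
      · intro h1
        exact absurd hγ (not_lt.2 h1)
    · exact ⟨fun _ => hγ, fun _ => hyα.le.trans hγ⟩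

/-- Uncountable closed sets contain almost all good points of all large levels. -/
theorem closed_good (hc : ∀ a : W, (Iic a).Countable) (hu : ¬ (univ : Set W).Countable)
    (hf : Guess W f)
    (hi : ∀ δ, InjOn (i δ) (Iio δ)) {C : Set (W × ℕ)} (hC : IsClosed C)
    (hCu : ¬ C.Countable) :
    ∃ N : ℕ, ∀ n, N < n → ∃ h : W → W, ∀ α, Good h α → (α, n) ∈ C := by
  have h1 : ∃ N, ¬ {β | (β, N) ∈ C}.Countable := by
    by_contra hcon
    push Not at hcon
    refine hCu ((countable_iUnion (fun n => (hcon n).image (fun β => (β, n)))).mono ?_)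
    rintro ⟨β, n⟩ hβ
    exact mem_iUnion.2 ⟨n, β, hβ, rfl⟩
  obtain ⟨N, hN⟩ := h1
  have step : ∀ n, ¬ {β | (β, n) ∈ C}.Countable →
      ∃ h : W → W, ∀ α, Good h α → (α, n + 1) ∈ C := by
    intro n hn
    obtain ⟨h, hh⟩ := key hI hc hf hi hn
    refine ⟨h, fun α hα => ?_⟩
    have := hh α hα n
    refine closure_minimal ?_ hC this
    rintro ⟨β, m⟩ ⟨h1, h2⟩
    simp only at h1 h2
    subst h2
    exact h1
  have all : ∀ k, ¬ {β | (β, N + k) ∈ C}.Countable := by
    intro k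
    induction k with
    | zero => exact hN
    | succ k ih =>
      obtain ⟨h, hh⟩ := step _ ih
      intro hcon
      exact good_uncountable hc hu h (hcon.mono (fun α hα => hh α hα))
  refine ⟨N, fun n hn => ?_⟩
  obtain ⟨k, rfl⟩ := Nat.exists_eq_add_of_lt hn
  exact step _ (all k)

theorem closed_inter (hc : ∀ a : W, (Iic a).Countable) (hu : ¬ (univ : Set W).Countable)
    (hf : Guess W f)
    (hi : ∀ δ, InjOn (i δ) (Iio δ)) {C D : Set (W × ℕ)} (hC : IsClosed C)
    (hCu : ¬ C.Countable) (hD : IsClosed D) (hDu : ¬ D.Countable) :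
    (C ∩ D).Nonempty := by
  obtain ⟨N, hN⟩ := closed_good hI hc hu hf hi hC hCu
  obtain ⟨M, hM⟩ := closed_good hI hc hu hf hi hD hDu
  obtain ⟨h, hh⟩ := hN (max N M + 1) (by omega)
  obtain ⟨h', hh'⟩ := hM (max N M + 1) (by omega)
  have hne : (univ : Set W).Nonempty := by
    rw [nonempty_iff_ne_empty]
    intro h0
    exact hu (h0 ▸ countable_empty)
  obtain ⟨w, -⟩ := hne
  obtain ⟨α, -, hα⟩ := exists_good hc hu (fun w => max (h w) (h' w)) w
  exact ⟨(α, max N M + 1), hh α ⟨hα.1, fun γ hγ => (le_max_left _ _).trans_lt (hα.2 γ hγ)⟩,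
    hh' α ⟨hα.1, fun γ hγ => (le_max_right _ _).trans_lt (hα.2 γ hγ)⟩⟩

/-- One half of the normality: a countable closed set and a disjoint closed set. -/
theorem sep_countable (hc : ∀ a : W, (Iic a).Countable) (hu : ¬ (univ : Set W).Countable)
    {C D : Set (W × ℕ)} (hC : IsClosed C) (hD : IsClosed D)
    (hDc : D.Countable) (hCD : Disjoint C D) : SeparatedNhds C D := by
  have hreg : RegularSpace (W × ℕ) := hI.regularSpace
  obtain ⟨w, hw⟩ := exists_bound hc hu (hDc.image Prod.fst)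
  have hK : IsClopen {p : W × ℕ | p.1 ≤ w} := isClopen_Iic hI w
  have hKc : {p : W × ℕ | p.1 ≤ w}.Countable := by
    refine ((hc w).prod (countable_univ (α := ℕ))).mono ?_
    rintro ⟨x, n⟩ hx
    exact ⟨hx, trivial⟩
  -- a point outside a closed set has an open neighbourhood with closure missing the set
  have sep : ∀ (E : Set (W × ℕ)), IsClosed E → ∀ p, p ∉ E → ∃ O : Set (W × ℕ), IsOpen O ∧ p ∈ O ∧
      Disjoint (closure O) E := by
    intro E hE p hp
    obtain ⟨t, ht, htc, hts⟩ := exists_mem_nhds_isClosed_subset (hE.isOpen_compl.mem_nhds hp)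
    refine ⟨interior t, isOpen_interior, mem_interior_iff_mem_nhds.2 ht, ?_⟩
    rw [disjoint_left]
    intro q hq
    exact hts (closure_minimal interior_subset htc hq)
  -- separating covers
  have cover : ∀ (A E : Set (W × ℕ)), A.Countable → IsClosed E → Disjoint A E →
      HasSeparatingCover A E := by
    intro A E hA hE hAE
    rcases A.eq_empty_or_nonempty with rfl | hne
    · exact Set.hasSeparatingCover_empty_left _
    · obtain ⟨g, hg⟩ := hA.exists_eq_range hne
      have : ∀ n, ∃ O : Set (W × ℕ), IsOpen O ∧ g n ∈ O ∧ Disjoint (closure O) E := by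
        intro n
        refine sep E hE (g n) ?_
        have : g n ∈ A := by rw [hg]; exact mem_range_self n
        exact disjoint_left.1 hAE this
      choose O hO hgO hOE using this
      refine ⟨O, ?_, fun n => ⟨hO n, hOE n⟩⟩
      rw [hg]
      rintro _ ⟨n, rfl⟩
      exact mem_iUnion.2 ⟨n, hgO n⟩
  rw [← hasSeparatingCovers_iff_separatedNhds]
  refine ⟨?_, cover D C hDc hC hCD.symm⟩
  obtain ⟨u, hu1, hu2⟩ := cover (C ∩ {p : W × ℕ | p.1 ≤ w}) D (hKc.mono inter_subset_right) hD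
    (hCD.mono_left inter_subset_left)
  refine ⟨fun n => Nat.casesOn n ({p : W × ℕ | p.1 ≤ w}ᶜ) u, ?_, ?_⟩
  · intro p hp
    by_cases hpw : p.1 ≤ w
    · obtain ⟨n, hn⟩ := mem_iUnion.1 (hu1 ⟨hp, hpw⟩)
      exact mem_iUnion.2 ⟨n + 1, hn⟩
    · exact mem_iUnion.2 ⟨0, hpw⟩
  · intro n
    cases n with
    | zero =>
      refine ⟨hK.compl.isOpen, ?_⟩
      show Disjoint (closure ({p : W × ℕ | p.1 ≤ w}ᶜ)) D
      rw [hK.compl.isClosed.closure_eq, disjoint_left]
      intro p hp hpD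
      exact hp (hw _ (mem_image_of_mem _ hpD)).le
    | succ n => exact hu2 n

theorem normal (hc : ∀ a : W, (Iic a).Countable) (hu : ¬ (univ : Set W).Countable)
    (hf : Guess W f)
    (hi : ∀ δ, InjOn (i δ) (Iio δ)) : NormalSpace (W × ℕ) := by
  constructor
  intro C D hC hD hCD
  by_cases hDc : D.Countable
  · exact sep_countable hI hc hu hC hD hDc hCD
  by_cases hCc : C.Countable
  · exact (sep_countable hI hc hu hD hC hCc hCD.symm).symm
  obtain ⟨p, hp⟩ := closed_inter hI hc hu hf hi hC hCc hD hDc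
  exact absurd hp.2 (disjoint_left.1 hCD hp.1)

theorem not_cp (hc : ∀ a : W, (Iic a).Countable) (hu : ¬ (univ : Set W).Countable)
    (hf : Guess W f)
    (hi : ∀ δ, InjOn (i δ) (Iio δ)) : ¬ CountablyParacompact (W × ℕ) := by
  intro hcp
  have hmax : ∀ w : W, ∃ δ, w < δ := by
    intro w
    obtain ⟨δ, hδ⟩ := exists_bound hc hu (countable_singleton w)
    exact ⟨δ, hδ w rfl⟩
  obtain ⟨V, hVo, hVc, hVl, hVr⟩ := hcp (fun n => {p : W × ℕ | p.2 ≤ n})
    (fun n => isOpen_level hI hmax n) (by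
      rw [eq_univ_iff_forall]
      intro p
      exact mem_iUnion.2 ⟨p.2, (le_rfl : p.2 ≤ p.2)⟩)
  let O : ℕ → Set (W × ℕ) := fun n => ⋃₀ {A ∈ V | ¬ A ⊆ {p : W × ℕ | p.2 ≤ n}}
  have hO : ∀ n, IsOpen (O n) := fun n => isOpen_sUnion (fun A hA => hVo A hA.1)
  have hOsub : ∀ n p, p ∉ O n → p.2 ≤ n := by
    intro n p hp
    by_contra hpn
    have hpV : p ∈ ⋃₀ V := by rw [hVc]; trivial
    obtain ⟨A, hA, hpA⟩ := hpV
    exact hp ⟨A, ⟨hA, fun h => hpn (h hpA)⟩, hpA⟩
  have hOc : ∀ n, ((O n)ᶜ).Countable := by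
    intro n
    by_contra hcon
    obtain ⟨N, hN⟩ := closed_good hI hc hu hf hi (hO n).isClosed_compl hcon
    obtain ⟨h, hh⟩ := hN (max N n + 1) (by omega)
    have hne : (univ : Set W).Nonempty := by
      rw [nonempty_iff_ne_empty]
      intro h0
      exact hu (h0 ▸ countable_empty)
    obtain ⟨w, -⟩ := hne
    obtain ⟨α, -, hα⟩ := exists_good hc hu h w
    have := hOsub n _ (hh α hα)
    simp only at this
    omega
  have hex : ∃ p : W × ℕ, ∀ n, p ∈ O n := by
    by_contra hcon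
    push Not at hcon
    refine hu (((countable_iUnion hOc).image Prod.fst).mono ?_)
    intro w _
    obtain ⟨n, hn⟩ := hcon (w, 0)
    exact ⟨(w, 0), mem_iUnion.2 ⟨n, hn⟩, rfl⟩
  obtain ⟨p, hp⟩ := hex
  obtain ⟨t, ht, hfin⟩ := hVl p
  -- the members of `V` that contain `p`
  have hfin' : {A : V | p ∈ (A : Set (W × ℕ))}.Finite :=
    hfin.subset (fun A hA => ⟨p, hA, mem_of_mem_nhds ht⟩)
  choose g hg using hVr
  obtain ⟨M, hM⟩ := (hfin'.image (fun A : V => g A.1 A.2)).bddAbove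
  obtain ⟨A, ⟨hA, hAn⟩, hpA⟩ := hp M
  refine hAn ((hg A hA).trans ?_)
  intro q hq
  have : g A hA ≤ M := hM ⟨⟨A, hA⟩, hpA, rfl⟩
  simp only [mem_ofPred_eq] at hq ⊢
  omega

end Main

/-- The guessing principle gives a Dowker space on `W × ℕ`. -/
theorem exists_dowker {W : Type} [LinearOrder W] [WellFoundedLT W]
    (hc : ∀ a : W, (Iic a).Countable) (hu : ¬ (univ : Set W).Countable)
    (hG : ∃ f : W → W → ℕ, Guess W f) :
    ∃ τ : TopologicalSpace (W × ℕ), @IsDowker (W × ℕ) τ ∧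
      ∀ x : W × ℕ, ∃ u : Set (W × ℕ), x ∈ u ∧ u.Countable ∧ @IsClopen (W × ℕ) τ u := by
  obtain ⟨f, hf⟩ := hG
  have hi : ∀ δ : W, ∃ j : W → ℕ, InjOn j (Iio δ) := by
    intro δ
    exact countable_iff_exists_injOn.1 ((hc δ).mono Iio_subset_Iic_self)
  choose i hi using hi
  let τ : TopologicalSpace (W × ℕ) := TopologicalSpace.induced (code f i) inferInstance
  have hI : IsInducing (code f i) := ⟨rfl⟩
  have hmax : ∀ w : W, ∃ δ, w < δ := by
    intro w
    obtain ⟨δ, hδ⟩ := exists_bound hc hu (countable_singleton w)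
    exact ⟨δ, hδ w rfl⟩
  refine ⟨τ, ⟨t2 hI hmax, normal hI hc hu hf hi, not_cp hI hc hu hf hi⟩, fun x => ?_⟩
  refine ⟨{p : W × ℕ | p.1 ≤ x.1}, le_refl x.1, ?_, isClopen_Iic hI x.1⟩
  refine ((hc x.1).prod (countable_univ (α := ℕ))).mono ?_
  rintro ⟨y, n⟩ hy
  exact ⟨hy, trivial⟩

end Pool.Agent.LibDowk70
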